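import Pool.Agent.Helper52.MEI.F4
import Pool.Agent.Helper75.MEI.VL
import Pool.Agent.Helper22.MEI.Main

/-!
# Project MEI: the analytic inequality and the theorem for class T
-/

namespace Helper82.MEI

open Set MeasureTheory Helper80.CW Helper82.CW Helper22.MEI

theorem m1a : M1A :=
  Helper75.MEI.M1A_of' Helper52.MEI.Tf_f0 Helper52.MEI.Tf_f1 Helper52.MEI.al_f0
    Helper52.MEI.St_f0_ge Helper52.MEI.St_f0_le Helper52.MEI.St_f1_le

/-- Bodies of constant width one which contain a regular unit tetrahedron. -/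
theorem volume_ge {K : Set E3} (hK : IsCompact K) (hc : Convex ℝ K)
    (hw : Width1 K) {a : Fin 4 → E3} (ha : ∀ i, a i ∈ K)
    (hd : ∀ i j, i ≠ j → dist (a i) (a j) = 1) :
    ENNReal.ofReal (Real.pi * (2 / 3 - √3 / 4 * Real.arccos (1 / 3))) ≤ volume K :=
  class_T_of_M1A m1a hK hc hw ha hd

end Helper82.MEI
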